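import Pool.Agent.Helper27.NF.Stm

set_option autoImplicit false

/-!
# STEP (helper77 for helper27, MP_3938c6_al)
-/

namespace Pool.Agent.Helper77.NF.Step

open Pool.Agent.Helper27.NF

variable {K R : Type} [Field K] [Ring R] [Algebra K R]

theorem ev_append {ι : Type} (y : ι → R) (z : R) (l1 l2 : List (Option ι)) :
    ev y z (l1 ++ l2) = ev y z l1 * ev y z l2 := by
  unfold ev
  rw [List.map_append, List.prod_append]

theorem mul_prod_mem (A : NonUnitalSubalgebra K R) (L : List R) (hL : ∀ y ∈ L, y ∈ A) :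
    ∀ a ∈ A, a * L.prod ∈ A := by
  induction L with
  | nil =>
    intro a ha
    simpa using ha
  | cons x L ih =>
    intro a ha
    rw [List.prod_cons, ← mul_assoc]
    exact ih (fun y hy => hL y (List.mem_cons_of_mem _ hy)) _ (mul_mem ha (hL x List.mem_cons_self))

/-- from `r b` to `r` -/
theorem zz_of {A : NonUnitalSubalgebra K R} (hM : Minl A) {r h : R}
    (hz : ∀ b ∈ A, ZZ A (r * b) h) : ZZ A r h := by
  intro a ha b hb c hc
  have hb' := hM.sq b hb
  clear hb
  induction hb' using Submodule.span_induction with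
  | mem z hz' =>
    obtain ⟨u, hu, v, hv, rfl⟩ := hz'
    have h1 := hz u hu a ha v hv c hc
    simpa only [mul_assoc] using h1
  | zero => simp
  | add x y _ _ hx hy => rw [mul_add, add_mul, add_mul, hx, hy, add_zero]
  | smul t x _ hx => rw [mul_smul_comm, smul_mul_assoc, smul_mul_assoc, hx, smul_zero]

/-- the elements of the subalgebra are combinations of words -/
theorem mem_words {ι : Type} (y : ι → R) (z : R) (S : Set R) (hS : ∀ t ∈ S, t = z ∨ ∃ i, y i = t)
    (v : R) (hv : v ∈ NonUnitalAlgebra.adjoin K S) :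
    v ∈ Submodule.span K ((ev y z) '' {l : List (Option ι) | l ≠ []}) := by
  induction hv using NonUnitalAlgebra.adjoin_induction with
  | mem t ht =>
    apply Submodule.subset_span
    rcases hS t ht with rfl | ⟨i, rfl⟩
    · exact ⟨[none], by simp, by simp [ev]⟩
    · exact ⟨[some i], by simp, by simp [ev]⟩
  | add a b _ _ ha hb => exact add_mem ha hb
  | zero => exact zero_mem _
  | mul a b _ _ ha hb =>
    have h1 := Submodule.mul_mem_mul ha hb
    rw [Submodule.span_mul_span] at h1
    refine Submodule.span_mono ?_ h1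
    rintro _ ⟨_, ⟨l1, h1, rfl⟩, _, ⟨l2, h2, rfl⟩, rfl⟩
    refine ⟨l1 ++ l2, ?_, ev_append y z l1 l2⟩
    intro h
    exact h1 (List.append_eq_nil_iff.1 h).1
  | smul c a _ ha => exact Submodule.smul_mem _ c ha

/-- the nonempty words of length `< m` -/
noncomputable def LL (ι : Type) [Finite ι] (m : ℕ) : Finset (List (Option ι)) :=
  (Set.Finite.subset (List.finite_length_lt (Option ι) m)
    (fun (l : List (Option ι)) (h : l ∈ {l : List (Option ι) | l ≠ [] ∧ l.length < m}) =>
      h.2)).toFinset

theorem mem_LL {ι : Type} [Finite ι] {m : ℕ} {l : List (Option ι)} :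
    l ∈ LL ι m ↔ l ≠ [] ∧ l.length < m := by
  unfold LL
  rw [Set.Finite.mem_toFinset]
  rfl

theorem exists_f {ι : Type} [Finite ι] (y : ι → R) (z : R) (m : ℕ)
    (hm : ∀ l : List (Option ι), l.length = m → ev y z l = 0) (v : R)
    (hv : v ∈ Submodule.span K ((ev y z) '' {l : List (Option ι) | l ≠ []})) :
    ∃ f : List (Option ι) → K, v = ∑ l ∈ LL ι m, f l • ev y z l := by
  have h1 : v ∈ Submodule.span K ((ev y z) '' (LL ι m : Set (List (Option ι)))) := by
    refine Submodule.span_le.2 ?_ hv
    rintro _ ⟨l, hl, rfl⟩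
    by_cases h : l.length < m
    · exact Submodule.subset_span ⟨l, Finset.mem_coe.2 (mem_LL.2 ⟨hl, h⟩), rfl⟩
    · have h2 : ev y z l = 0 := by
        rw [← List.take_append_drop m l, ev_append, hm (l.take m) (by
          rw [List.length_take]
          omega), zero_mul]
      rw [h2]
      exact zero_mem _
  rw [Submodule.mem_span_image_finset_iff_exists_fun] at h1
  classical
  obtain ⟨f, hf⟩ := h1
  refine ⟨fun l => if h : l ∈ LL ι m then f ⟨l, h⟩ else 0, ?_⟩
  rw [← hf, ← Finset.sum_coe_sort (LL ι m)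
    (fun l => (if h : l ∈ LL ι m then f ⟨l, h⟩ else 0) • ev y z l)]
  refine Finset.sum_congr rfl fun i _ => ?_
  rw [dif_pos i.2]

theorem ev_mem {ι : Type} (B : NonUnitalSubalgebra K R) (y : ι → R) (hy : ∀ i, y i ∈ B) (z : R)
    (l : List (Option ι)) (hl : l ≠ []) (hn : none ∉ l) : ev y z l ∈ B := by
  induction l with
  | nil => exact absurd rfl hl
  | cons o l ih =>
    have h1 : ev y z (o :: l) = o.elim z y * ev y z l := by
      unfold ev
      rw [List.map_cons, List.prod_cons]
    rw [h1]
    cases o with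
    | none => exact absurd List.mem_cons_self hn
    | some i =>
      by_cases h : l = []
      · rw [h]
        have h2 : ev y z [] = 1 := by simp [ev]
        rw [h2, mul_one]
        exact hy i
      · exact mul_mem (hy i) (ih h fun h3 => hn (List.mem_cons_of_mem _ h3))

theorem step0 (hKEY : S_KEY) (hFG : S_FG) [CharZero K] (A : NonUnitalSubalgebra K R)
    (hNF : NoFin A) (hM : Minl A) (w : R) (hw : w ∈ A) (L : List R) (hL : ∀ y ∈ L, y ∈ A)
    (x r : R) (hx : x ∈ A) (hr : ∀ a ∈ A, a * r ∈ A)
    (H : ∀ c ∈ A, ∃ v ∈ NonUnitalAlgebra.adjoin K ({y : R | y ∈ L} ∪ {x * c}),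
      ZZ A (r * c) (w - v)) :
    ∃ v ∈ NonUnitalAlgebra.adjoin K {y : R | y ∈ L}, ZZ A r (w - v) := by
  classical
  obtain ⟨m, hm⟩ := hFG K R A hM (insert x L.toFinset) (by
    intro t ht
    rw [Finset.mem_insert, List.mem_toFinset] at ht
    rcases ht with rfl | ht
    · exact hx
    · exact hL t ht)
  have hm' : ∀ c ∈ A, ∀ l : List (Option (Fin L.length)), l.length = m →
      ev L.get (x * c) l = 0 := by
    intro c hc l hl
    refine hm _ ?_ (by rw [List.length_map]; exact hl)
    intro t ht
    rw [List.mem_map] at ht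
    obtain ⟨o, _, rfl⟩ := ht
    cases o with
    | none => exact ⟨x, Finset.mem_insert_self _ _, Or.inr ⟨c, hc, rfl⟩⟩
    | some i =>
      exact ⟨L.get i, Finset.mem_insert_of_mem (List.mem_toFinset.2 (L.get_mem i)), Or.inl rfl⟩
  obtain ⟨f, hf0, hf⟩ := hKEY K R A hNF (Fin L.length) L.get (fun i => hL _ (L.get_mem i)) x r w
    hx hr hw (LL (Fin L.length) m) (fun l hl => (mem_LL.1 hl).1) (by
      intro c hc
      obtain ⟨v, hv, hz⟩ := H c hc
      obtain ⟨f, hf⟩ := exists_f (K := K) L.get (x * c) m (hm' c hc) v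
        (mem_words L.get (x * c) _ (by
          rintro t (ht | ht)
          · right
            obtain ⟨i, hi⟩ := List.get_of_mem ht
            exact ⟨i, hi⟩
          · left
            exact ht) v hv)
      exact ⟨f, by rw [← hf]; exact hz⟩)
  refine ⟨_, ?_, zz_of hM hf⟩
  refine sum_mem fun l hl => ?_
  by_cases hn : none ∈ l
  · rw [hf0 l hl hn, zero_smul]
    exact zero_mem _
  · refine SMulMemClass.smul_mem _ ?_
    exact ev_mem _ _ (fun i => NonUnitalAlgebra.subset_adjoin K (L.get_mem i)) 0 l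
      (mem_LL.1 hl).1 hn

theorem main : S_KEY → S_FG → S_STEP := by
  intro hKEY hFG K R _ _ _ _ A hNF hM w hw L hInv
  obtain ⟨hL, hV⟩ := hInv
  have ha : ∃ x ∈ A, ∀ v ∈ NonUnitalAlgebra.adjoin K {y : R | y ∈ L},
      ¬ ZZ A (L.prod * x) (w - v) := by
    by_contra hcon
    push Not at hcon
    obtain ⟨v, hv, hz⟩ := step0 hKEY hFG A hNF hM w hw L hL 0 L.prod (zero_mem A)
      (mul_prod_mem A L hL) (fun c hc => by
        obtain ⟨v, hv, hz⟩ := hcon c hc
        exact ⟨v, NonUnitalAlgebra.adjoin_mono Set.subset_union_left hv, hz⟩)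
    exact hV v hv hz
  obtain ⟨x, hx, hx'⟩ := ha
  by_contra hcon
  push Not at hcon
  obtain ⟨v, hv, hz⟩ := step0 hKEY hFG A hNF hM w hw L hL x (L.prod * x) hx (fun a ha => by
      rw [← mul_assoc]
      exact mul_mem (mul_prod_mem A L hL a ha) hx) (fun c hc => by
    have h1 := hcon (x * c)
    unfold Pool.Agent.Helper27.NF.Inv at h1
    push Not at h1
    obtain ⟨v, hv, hz⟩ := h1 (by
      intro y hy
      rw [List.mem_append, List.mem_singleton] at hy
      rcases hy with hy | rfl
      · exact hL y hy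
      · exact mul_mem hx hc)
    refine ⟨v, ?_, ?_⟩
    · have h2 : ({y : R | y ∈ L} ∪ {x * c}) = {y : R | y ∈ L ++ [x * c]} := by
        ext t
        simp [or_comm]
      rw [h2]
      exact hv
    · rw [List.prod_append, List.prod_singleton] at hz
      rwa [mul_assoc])
  exact hx' v hv hz

end Pool.Agent.Helper77.NF.Step
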